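import Mathlib
import Pool.Agent.P.MP_65e938_an.Main

set_option autoImplicit false

namespace Pool.Agent.Results.MP_65e938_an.ReductiveNormal

variable {H : Type*} [NormedAddCommGroup H] [InnerProductSpace ℂ H] [CompleteSpace H]

/-- A quasi-affinity: an injective bounded operator with dense range. -/
def IsQuasiAffinity (X : H →L[ℂ] H) : Prop :=
  Function.Injective X ∧ DenseRange X

/-- `A` and `B` are quasi-similar: `XA = BX` and `AY = YB` for some quasi-affinities `X`, `Y`. -/
def QuasiSimilar (A B : H →L[ℂ] H) : Prop :=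
  ∃ X Y : H →L[ℂ] H, IsQuasiAffinity X ∧ IsQuasiAffinity Y ∧ X * A = B * X ∧ A * Y = Y * B

/-- The algebra generated by `A`: the smallest unital subalgebra of `B(H)` that contains `A` and
is closed in the weak operator topology. -/
noncomputable def generatedAlgebra (A : H →L[ℂ] H) : Subalgebra ℂ (H →L[ℂ] H) :=
  sInf {S : Subalgebra ℂ (H →L[ℂ] H) |
    A ∈ S ∧ IsClosed (ContinuousLinearMapWOT.ofCLM '' (S : Set (H →L[ℂ] H)))}

/-- A subalgebra is reductive if every closed subspace invariant under all its members is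
invariant under all their adjoints. -/
def IsReductive (S : Subalgebra ℂ (H →L[ℂ] H)) : Prop :=
  ∀ M : Submodule ℂ H, IsClosed (M : Set H) → (∀ T ∈ S, ∀ x ∈ M, T x ∈ M) →
    ∀ T ∈ S, ∀ x ∈ M, ContinuousLinearMap.adjoint T x ∈ M

/-- An operator on a complex Hilbert space that is quasi-similar to a normal operator and
generates a reductive weakly closed algebra is normal. -/
theorem result {H : Type*} [NormedAddCommGroup H] [InnerProductSpace ℂ H] [CompleteSpace H]
    (A : H →L[ℂ] H) (hqs : ∃ N : H →L[ℂ] H, IsStarNormal N ∧ QuasiSimilar A N)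
    (hred : IsReductive (generatedAlgebra A)) : IsStarNormal A := by
  obtain ⟨N, hN, X, Y, hX, hY, hXA, hAY⟩ := hqs
  refine Pool.Agent.P.MP_65e938_an.normal_of_reductive hN hX.1 hY.2 hXA hAY ?_
  intro M hM hA
  let S : Subalgebra ℂ (H →L[ℂ] H) :=
    { carrier := {T | ∀ x ∈ M, T x ∈ M}
      mul_mem' := fun {a b} ha hb x hx => ha _ (hb x hx)
      add_mem' := fun {a b} ha hb x hx => M.add_mem (ha x hx) (hb x hx)
      algebraMap_mem' := fun r x hx => M.smul_mem r hx }
  have hle : generatedAlgebra A ≤ S :=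
    sInf_le ⟨hA, Pool.Agent.P.MP_65e938_an.isClosed_wot_invariant M hM⟩
  have hmem : A ∈ generatedAlgebra A := Algebra.mem_sInf.mpr fun _ hS => hS.1
  exact hred M hM (fun T hT => hle hT) A hmem

end Pool.Agent.Results.MP_65e938_an.ReductiveNormal
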